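import Pool.Agent.W424.KI.All
import Pool.Agent.W481.KI.T_Z
import Pool.Agent.W328.KZR.All

/-!
# Three arms in all annuli: conclusion
-/

set_option autoImplicit false

namespace Pool.Agent.W424.KI

/-- three arms in the annuli of the dislocated plane -/
theorem va : S_VA :=
  a_VA Pool.Agent.W481.KI.t_z1 Pool.Agent.W481.KI.t_z2 Pool.Agent.W481.KI.t_z3
    Pool.Agent.W658.KZ.a_UR3

/-- **three arms in the annuli of the plane, upper bound** -/
theorem u3 : Pool.Agent.W424.OD.U3 :=
  a_U3 Pool.Agent.W481.KI.t_z1 Pool.Agent.W481.KI.t_z2 Pool.Agent.W481.KI.t_z3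
    Pool.Agent.W658.KZ.a_UR3

end Pool.Agent.W424.KI
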