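import Pool.Agent.W424.KI.Defs
import Pool.Agent.W424.OD.Defs

/-!
# Annuli of the dislocated plane (three arms): the steps
(every step is a `Prop`; the file `T_X.lean` proves `t_X` from its hypotheses)
-/

set_option autoImplicit false

namespace Pool.Agent.W424.KI
open H974 H906.Cyl
open H12S (Dir hbE segD rimE H4 Crs Nr sqE)
open Pool.Agent.H160R2.ML (nm)
open Pool.Agent.H160R2.MU (Cel csq cpos EP inSq)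
open Pool.Agent.W801.OU
open Pool.Agent.W808.KZ (vp fp AdmZ OutF LandZ nrp ZCr mrg)

/-! ## topology of the box -/

/-- if two of the three sectors are connected in the box, then the third is not connected to them and
does not reach the boundary -/
def S_TRIB : Prop := ∀ (R : ℕ) (G : Set Edg), 1 ≤ R → ∀ t a b : ℕ, t < 3 → a < 3 → b < 3 → t ≠ a →
  t ≠ b → a ≠ b → RZ {0} (bxz R) G (scz 0 0 a) (scz 0 0 b) →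
  ¬ RZ {0} (bxz R) G (scz 0 0 t) (scz 0 0 a) ∧
  ¬ ∃ x : ℤ × ℤ, RZ {0} (bxz R) G (scz 0 0 t) x ∧ Tou R x

/-- if all the sectors reach the boundary, or one reaches it and is not connected to the others, or they
are pairwise not connected, then there are three arms -/
def S_ONB : Prop := ∀ (R : ℕ) (G : Set Edg), 1 ≤ R →
  ((∀ c : ℕ, c < 3 → ∃ x : ℤ × ℤ, RZ {0} (bxz R) G (scz 0 0 c) x ∧ Tou R x) → SE3 R G) ∧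
  (∀ c : ℕ, c < 3 → (∃ x : ℤ × ℤ, RZ {0} (bxz R) G (scz 0 0 c) x ∧ Tou R x) →
    (∀ d : ℕ, d < 3 → d ≠ c → ¬ RZ {0} (bxz R) G (scz 0 0 c) (scz 0 0 d)) → SE3 R G) ∧
  ((∀ c d : ℕ, c < 3 → d < 3 → c ≠ d → ¬ RZ {0} (bxz R) G (scz 0 0 c) (scz 0 0 d)) → SE3 R G)

/-- parity in the annulus: two different sectors have crossing clusters of the annulus with adjacent
touching points at the inner boundary -/
def S_ADJI : Prop := ∀ (d R : ℕ) (H : Set Edg), 2 ≤ d → d + 1 ≤ R → SE3 R H →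
  ∀ a b : ℕ, a < 3 → b < 3 → a ≠ b → ∃ (x y : ℤ × ℤ) (e e' : Edg),
    (e ∈ bxz R ∧ e ∉ AnS d R) ∧ e' ∈ AnS d R ∧
    RZ {0} (bxz R) H (scz 0 0 a) x ∧ RZ {0} (bxz R) H (scz 0 0 b) y ∧
    Crx d R H x ∧ Crx d R H y ∧
    ((Cor {0} 0 e x ∧ Cor {0} 1 e y) ∨ (Cor {0} 1 e x ∧ Cor {0} 0 e y)) ∧
    ((Cor {0} 0 e' x ∧ Cor {0} 1 e' y) ∨ (Cor {0} 1 e' x ∧ Cor {0} 0 e' y))

/-- the cocycle lemma: a symmetric relation which is invariant under connections and holds for no pair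
of sectors of the tip is a coboundary on the sides -/
def S_COC : Prop := ∀ (R : ℕ) (G : Set Edg) (Rel : ℤ × ℤ → ℤ × ℤ → Prop), 1 ≤ R →
  (∀ x y, Rel x y → Rel y x) → (∀ x x' y, RZ {0} (bxz R) G x x' → Rel x y → Rel x' y) →
  (∀ c d : ℕ, c < 3 → d < 3 → c ≠ d → ¬ Rel (scz 0 0 c) (scz 0 0 d)) →
  ∃ φ : ℤ × ℤ → Prop, (∀ x y, RZ {0} (bxz R) G x y → (φ x ↔ φ y)) ∧
    (∀ x y, SdR R x y → (Rel x y ↔ ¬ (φ x ↔ φ y)))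

/-- adjacent points are in different clusters -/
def S_NA : Prop := ∀ (R : ℕ) (G : Set Edg), 1 ≤ R → SE3 R G → ∀ x y : ℤ × ℤ,
  SdR R x y → ¬ RZ {0} (bxz R) G x y

/-! ## coarse geometry -/

/-- the tube touches the inner box and the outer region only at its cells -/
def S_z1 : Prop := ∀ (N L : ℕ) (Ci Co : Cel), 16 ≤ N → 3 * N ≤ L → AdmZ N Ci → AdmO L Co →
  ∀ z b : ℤ × ℤ, z ∈ TubI N L Ci Co → b ∈ BxI N L → |z.1 - b.1| ≤ 1 → |z.2 - b.2| ≤ 1 →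
  (z = csq N Ci ∧ |b.1| ≤ N ∧ |b.2| ≤ N) ∨ (z = isq L Co ∧ ((L : ℤ) ≤ |b.1| + 1 ∨ (L : ℤ) ≤ |b.2| + 1))

/-- the tube is connected and contains its cells -/
def S_z2 : Prop := ∀ (N L : ℕ) (Ci Co : Cel), 16 ≤ N → 3 * N ≤ L → AdmZ N Ci → AdmO L Co →
  (∀ (r : ℕ) (z z' : ℤ × ℤ) (u v : Vtx), 1 ≤ r → z ∈ TubI N L Ci Co → z' ∈ TubI N L Ci Co →
    inSq r z u → inSq r z' v → Reach (ET N L r Ci Co \ EB N L r) u v) ∧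
  csq N Ci ∈ TubI N L Ci Co ∧ isq L Co ∈ TubI N L Ci Co

/-- no checkerboard; position of the tube -/
def S_z3 : Prop := ∀ (N L : ℕ) (Ci Co : Cel), 16 ≤ N → 3 * N ≤ L → AdmZ N Ci → AdmO L Co →
  ∀ P : Set (ℤ × ℤ), P = BxI N L ∪ TubI N L Ci Co →
  (∀ x y : ℤ, (x, y) ∉ P → (x + 1, y + 1) ∉ P → (x + 1, y) ∉ P ∨ (x, y + 1) ∉ P) ∧
  (∀ x y : ℤ, (x + 1, y) ∉ P → (x, y + 1) ∉ P → (x, y) ∉ P ∨ (x + 1, y + 1) ∉ P) ∧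
  (∀ z ∈ TubI N L Ci Co, (-(L : ℤ) ≤ z.1 ∧ z.1 < L ∧ -(L : ℤ) ≤ z.2 ∧ z.2 < L) ∧
    ¬ (-(N : ℤ) ≤ z.1 ∧ z.1 < N ∧ -(N : ℤ) ≤ z.2 ∧ z.2 < N) ∧
    ((N : ℤ) ≤ z.1 - z.2 ∨ z.1 + z.2 ≤ -6 ∨ 5 ≤ z.1 + z.2))

/-- the closed region has two sides -/
def S_EX : Prop := ∀ (N L r : ℕ) (Ci Co : Cel) (R : ℕ), Geo N L r Ci Co R → ∃ a b : ℤ × ℤ,
  (∀ x : ℤ × ℤ, XE N L r Ci Co x →
    RZ {0} (Clo N L r Ci Co) ∅ x a ∨ RZ {0} (Clo N L r Ci Co) ∅ x b) ∧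
  (∀ p : Vtx, OutF N r Ci p → XE N L r Ci Co (fp p)) ∧
  (∀ p : Vtx, SdA L r Co p → RZ {0} (Clo N L r Ci Co) ∅ (fp p) a) ∧
  (∀ p : Vtx, SdB L r Co p → RZ {0} (Clo N L r Ci Co) ∅ (fp p) b)

/-- the closed region is chained by closed squares and adjacent points -/
def S_XCH : Prop := ∀ (N L r : ℕ) (Ci Co : Cel) (R : ℕ), Geo N L r Ci Co R → ∀ φ : ℤ × ℤ → Prop,
  (∀ x y, RZ {0} (Clo N L r Ci Co) ∅ x y → (φ x ↔ φ y)) →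
  (∀ x y, XE N L r Ci Co x → XE N L r Ci Co y → SdR R x y → (φ x ↔ φ y)) →
  ∀ x y, XE N L r Ci Co x → XE N L r Ci Co y → (φ x ↔ φ y)

/-! ## deterministic steps -/

def S_DET : Prop := ∀ (N L r : ℕ) (Ci Co : Cel) (R : ℕ), Geo N L r Ci Co R → ∀ F : Finset Edg,
  F ⊆ boxE R → LandZ N r Ci (↑F : Set Edg) → LandO L r Co R (↑F : Set Edg) →
  EZ N L r Ci Co R (↑(FA N L r Ci Co R F) : Set Edg)

def S_DETP : Prop := ∀ (N L r : ℕ) (Ci Co : Cel) (R : ℕ), Geo N L r Ci Co R →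
  Pr (fun _ => (1 / 2 : ℝ)) (boxE (N * r)) (fun F => LandZ N r Ci (↑F : Set Edg)) *
    PF R (fun F => LandO L r Co R (↑F : Set Edg)) ≤
  PF R (fun F => EZ N L r Ci Co R (↑(FA N L r Ci Co R F) : Set Edg))

/-- three arms of the box imply three arms of a smaller box and of an annulus -/
def S_DEC : Prop := ∀ (d D R : ℕ) (H G : Set Edg), 1 ≤ d → d ≤ R → D ≤ R →
  (∀ e ∈ bxz d, (e ∈ H ↔ e ∈ G)) → (∀ e ∈ AnS D R, (e ∈ H ↔ e ∈ G)) → SE3 R H →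
  SE3 d G ∧ VA D R G

/-! ## bad events -/

/-- step A: different clusters are far from each other at the boundary of the tube -/
def S_SEPA : Prop := ∀ (N L r ρ l : ℕ) (Ci Co : Cel) (R : ℕ), Geo N L r Ci Co R → 1 ≤ l →
  32 * l ≤ ρ → 64 * ρ ≤ r → ∀ F : Finset Edg, F ⊆ boxE R → ¬ Bad 1 N L r ρ l (↑F : Set Edg) →
  ∀ x x' u u' : ℤ × ℤ, XA N L r Ci Co x → XA N L r Ci Co x' →
  RZ {0} (bxz R) (↑(FA N L r Ci Co R F) : Set Edg) x u →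
  RZ {0} (bxz R) (↑(FA N L r Ci Co R F) : Set Edg) x' u' →
  DeA N L r Ci Co u → DeA N L r Ci Co u' → nrp l u u' →
  RZ {0} (bxz R) (↑(FA N L r Ci Co R F) : Set Edg) x x'

/-- the strip is far from the zipper -/
def S_STR : Prop := ∀ (N L r ρ : ℕ) (Ci Co : Cel) (R : ℕ), Geo N L r Ci Co R → 16 ≤ ρ →
  64 * ρ ≤ r → ∀ e ∈ Yb N L r ρ Ci Co, (ρ : ℤ) ≤ |e.1 + e.2.1| ∨ (ρ : ℤ) ≤ dco e

/-- the cluster of the sector `c` stays away from the points where the zipper leaves the inner box and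
enters the outer region -/
def S_FRB : Prop := ∀ (c N L r ρ : ℕ) (Ci Co : Cel) (R : ℕ), c < 3 → Geo N L r Ci Co R → 16 ≤ ρ →
  64 * ρ ≤ r → ∀ F : Finset Edg, F ⊆ boxE R → ¬ BZ N L r ρ (↑F : Set Edg) →
  (∀ x : ℤ × ℤ, XE N L r Ci Co x →
    ¬ RZ {0} (bxz R) (↑(FB N L r Ci Co R F) : Set Edg) (scz 0 0 c) x) →
  ∀ x : ℤ × ℤ, RZ {0} (bxz R) (↑(FB N L r Ci Co R F) : Set Edg) (scz 0 0 c) x →
  (16 * ρ : ℤ) < |x.1| ∨ ((16 * ρ : ℤ) < |x.2 + 2 * N * r| ∧ (16 * ρ : ℤ) < |x.2 + 2 * L * r|)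

/-- step B: separation of the cluster of a sector `c` and of the local clusters of class `0` -/
def S_SEPB1 : Prop := ∀ (c N L r ρ l : ℕ) (Ci Co : Cel) (R : ℕ), c < 3 → Geo N L r Ci Co R → 1 ≤ l →
  32 * l ≤ ρ → 64 * ρ ≤ r → ∀ F : Finset Edg, F ⊆ boxE R → ¬ Bad 0 N L r ρ l (↑F : Set Edg) →
  ¬ BZ N L r ρ (↑F : Set Edg) →
  (∀ x : ℤ × ℤ, XE N L r Ci Co x →
    ¬ RZ {0} (bxz R) (↑(FB N L r Ci Co R F) : Set Edg) (scz 0 0 c) x) →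
  ∀ u v : Vtx, RZ {0} (bxz R) (↑(FB N L r Ci Co R F) : Set Edg) (scz 0 0 c) (vp u) →
  DvB N L r Ci Co u → DvB N L r Ci Co v → KL N L r ρ Ci Co F v → Nr (4 * l) u v →
  RZ {0} (bxz R) (↑(FB N L r Ci Co R F) : Set Edg) (vp u) (vp v)

/-- the bad events have small probability, for arbitrarily large `M3` -/
def S_BADK : Prop := ∀ N L : ℕ, 16 ≤ N → 3 * N ≤ L → ∀ δ : ℝ, 0 < δ → ∀ K : ℕ, ∃ M3 M4 : ℕ,
  K ≤ M3 ∧ 64 ≤ M3 ∧ 64 * M3 ≤ M4 ∧ ∀ (c r R : ℕ), c < 2 → M4 ≤ r → 4 * (L * r) ≤ R →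
  PF R (fun F => Bad c N L r (r / M3) (r / M4) (↑F : Set Edg)) ≤ δ

def S_ZP : Prop := ∀ N L : ℕ, 16 ≤ N → 3 * N ≤ L → ∀ δ : ℝ, 0 < δ → ∃ K : ℕ, ∀ (ρ r R : ℕ), 1 ≤ ρ →
  K * ρ ≤ r → 4 * (L * r) ≤ R → PF R (fun F => BZ N L r ρ (↑F : Set Edg)) ≤ δ

def S_BADZ : Prop := ∀ N L : ℕ, 16 ≤ N → 3 * N ≤ L → ∀ δ : ℝ, 0 < δ → ∃ M3 M4 : ℕ,
  64 ≤ M3 ∧ 64 * M3 ≤ M4 ∧ ∀ (c r R : ℕ), c < 2 → M4 ≤ r → 4 * (L * r) ≤ R →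
  PF R (fun F => Bad c N L r (r / M3) (r / M4) (↑F : Set Edg) ∨ BZ N L r (r / M3) (↑F : Set Edg)) ≤ δ

/-- independence -/
def S_IND : Prop := ∀ (c N L r ρ l R : ℕ), c < 2 → 16 ≤ N → 3 * N ≤ L → 4 ≤ r → 1 ≤ l → 32 * l ≤ ρ →
  64 * ρ ≤ r → 4 * (L * r) ≤ R →
  PF R (fun F => (SE3 (N * r / 2 : ℕ) (↑F : Set Edg) ∧ VA (2 * (L * r) : ℕ) R (↑F : Set Edg)) ∧
      (Bad c N L r ρ l (↑F : Set Edg) ∨ BZ N L r ρ (↑F : Set Edg)))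
    ≤ uR (N * r / 2) * vA (2 * (L * r)) R *
      PF R (fun F => Bad c N L r ρ l (↑F : Set Edg) ∨ BZ N L r ρ (↑F : Set Edg))

/-- traps -/
def S_TRP : Prop := ∀ L M4 : ℕ, 1 ≤ L → 1 ≤ M4 → ∃ κ : ℝ, 0 < κ ∧ ∃ r0 : ℕ, ∀ (c r R : ℕ), c < 2 →
  r0 ≤ r → 4 * (L * r) ≤ R → κ ≤ PF R (fun F => PTr c L r (r / M4) (↑F : Set Edg))

/-! ## re-randomisation -/

/-- step A, stability -/
def S_EXA1 : Prop := ∀ (N L r : ℕ) (Ci Co : Cel) (R : ℕ), Geo N L r Ci Co R →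
  ∀ F G : Finset Edg, F ⊆ boxE R → G ⊆ boxE R →
  ExA1 N L r Ci Co R (mrg (ExA1 N L r Ci Co R F) F G) = ExA1 N L r Ci Co R F ∧
  (∀ x, KA1 N L r Ci Co R (mrg (ExA1 N L r Ci Co R F) F G) x ↔ KA1 N L r Ci Co R F x) ∧
  (∀ x y, KA1 N L r Ci Co R F x →
    (RZ {0} (bxz R) (↑(FA N L r Ci Co R (mrg (ExA1 N L r Ci Co R F) F G)) : Set Edg) x y ↔
      RZ {0} (bxz R) (↑(FA N L r Ci Co R F) : Set Edg) x y))

/-- step A, deterministic part -/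
def S_MA1 : Prop := ∀ (N L r ρ l : ℕ) (Ci Co : Cel) (R : ℕ), Geo N L r Ci Co R → 1 ≤ l →
  32 * l ≤ ρ → 64 * ρ ≤ r → ∀ F G : Finset Edg, F ⊆ boxE R → G ⊆ boxE R →
  ¬ Bad 1 N L r ρ l (↑F : Set Edg) → PTr 1 L r l (↑G : Set Edg) →
  EZ N L r Ci Co R (↑(FA N L r Ci Co R F) : Set Edg) →
  EZ N L r Ci Co R (↑(FB N L r Ci Co R (mrg (ExA1 N L r Ci Co R F) F G)) : Set Edg)

/-- step B, stability -/
def S_EXB1 : Prop := ∀ (c N L r ρ : ℕ) (Ci Co : Cel) (R : ℕ), Geo N L r Ci Co R → 1 ≤ ρ →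
  64 * ρ ≤ r → ∀ F G : Finset Edg, F ⊆ boxE R → G ⊆ boxE R →
  ExB1 c N L r ρ Ci Co R (mrg (ExB1 c N L r ρ Ci Co R F) F G) = ExB1 c N L r ρ Ci Co R F ∧
  (∀ v, KL N L r ρ Ci Co (mrg (ExB1 c N L r ρ Ci Co R F) F G) v ↔ KL N L r ρ Ci Co F v) ∧
  (∀ x : ℤ × ℤ,
    (RZ {0} (bxz R) (↑(FB N L r Ci Co R (mrg (ExB1 c N L r ρ Ci Co R F) F G)) : Set Edg)
        (scz 0 0 c) x ↔
      RZ {0} (bxz R) (↑(FB N L r Ci Co R F) : Set Edg) (scz 0 0 c) x))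

/-- step B, deterministic part -/
def S_MB1 : Prop := ∀ (c N L r ρ l : ℕ) (Ci Co : Cel) (R : ℕ), c < 3 → Geo N L r Ci Co R → 1 ≤ l →
  32 * l ≤ ρ → 64 * ρ ≤ r → ∀ F G : Finset Edg, F ⊆ boxE R → G ⊆ boxE R →
  ¬ Bad 0 N L r ρ l (↑F : Set Edg) → ¬ BZ N L r ρ (↑F : Set Edg) → PTr 0 L r l (↑G : Set Edg) →
  EZc c N L r Ci Co R (↑(FB N L r Ci Co R F) : Set Edg) →
  SE3 R (↑(mrg (ExB1 c N L r ρ Ci Co R F) F G) : Set Edg)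

/-! ## the steps -/

def S_STA : Prop := ∀ (N L : ℕ) (Ci Co : Cel), 16 ≤ N → 3 * N ≤ L → AdmZ N Ci → AdmO L Co →
  ∀ δ : ℝ, 0 < δ → ∃ K : ℝ, 0 < K ∧ ∃ r0 : ℕ, ∀ r R : ℕ, r0 ≤ r → 4 * (L * r) ≤ R →
  PF R (fun F => EZ N L r Ci Co R (↑(FA N L r Ci Co R F) : Set Edg)) ≤
    δ * (uR (N * r / 2) * vA (2 * (L * r)) R) +
      K * PF R (fun F => EZ N L r Ci Co R (↑(FB N L r Ci Co R F) : Set Edg))

def S_STB : Prop := ∀ (N L : ℕ) (Ci Co : Cel), 16 ≤ N → 3 * N ≤ L → AdmZ N Ci → AdmO L Co →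
  ∀ δ : ℝ, 0 < δ → ∃ K : ℝ, 0 < K ∧ ∃ r0 : ℕ, ∀ r R : ℕ, r0 ≤ r → 4 * (L * r) ≤ R →
  PF R (fun F => EZ N L r Ci Co R (↑(FB N L r Ci Co R F) : Set Edg)) ≤
    δ * (uR (N * r / 2) * vA (2 * (L * r)) R) + K * uR R

/-- landing of the annulus at its inner boundary -/
def S_LANO : Prop := ∀ δ : ℝ, 0 < δ → ∀ K : ℕ, ∃ L : ℕ, K ≤ L ∧ ∃ Cs : Finset Cel,
  (∀ C ∈ Cs, AdmO L C) ∧ ∃ r0 : ℕ, ∀ r R : ℕ, r0 ≤ r → 4 * (L * r) ≤ R →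
  vA (L * r) R ≤ δ * vA (2 * (L * r)) R + ∑ C ∈ Cs, PF R (fun F => LandO L r C R (↑F : Set Edg))

/-- lower bound for the three arm event of the dislocated plane -/
def S_LB : Prop := ∃ c : ℝ, 0 < c ∧ ∀ R : ℕ, 1 ≤ R → c * (R : ℝ) ^ (-(2 / 3 : ℝ)) ≤ uR R

/-- one good inner cell -/
def S_CEL : Prop := ∃ (N : ℕ) (Cs : Finset Cel) (c : ℝ) (r0 : ℕ), 16 ≤ N ∧
  (∀ C ∈ Cs, AdmZ N C) ∧ 0 < c ∧ ∀ r : ℕ, r0 ≤ r → ∃ Ci ∈ Cs, c * (r : ℝ) ^ (-(2 / 3 : ℝ)) ≤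
    Pr (fun _ => (1 / 2 : ℝ)) (boxE (N * r)) (fun F => LandZ N r Ci (↑F : Set Edg))

/-- the recursion -/
def S_RCI : Prop := ∀ δ : ℝ, 0 < δ → ∃ L : ℕ, 1 ≤ L ∧ ∃ K : ℝ, 0 < K ∧ ∃ r0 : ℕ, ∀ r R : ℕ,
  r0 ≤ r → 4 * (L * r) ≤ R →
  vA (L * r) R ≤ δ * vA (2 * (L * r)) R + K * ((r : ℝ) / R) ^ (2 / 3 : ℝ)

/-- **upper bound for the annuli of the dislocated plane** -/
def S_VA : Prop := ∃ C : ℝ, 0 < C ∧ ∀ d R : ℕ, 1 ≤ d → d ≤ R →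
  vA d R ≤ C * ((d : ℝ) / R) ^ (2 / 3 : ℝ)

/-! ## transfer from the plane -/

/-- from the annuli of the plane to the annuli of the dislocated plane -/
def S_TRF : Prop := ∃ (C : ℝ) (a b m : ℕ), 0 < C ∧ 1 ≤ a ∧ 1 ≤ b ∧ ∀ (c : ℤ × ℤ) (d k : ℕ), 1 ≤ d →
  m * d ≤ k → ∀ S : Finset Edg, H12S.blk c k ⊆ S →
  H12S.PQ (1 / 2) S (fun F => Pool.Agent.W424.OD.A3v c d k (↑F : Set Edg)) ≤ C * vA (a * d) (k / b)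

/-- **U3** -/
def S_U3 : Prop := Pool.Agent.W424.OD.U3

end Pool.Agent.W424.KI
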