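import Pool.Agent.W424.KI.TRFb
import Pool.Agent.W756.KI.T_TRIB
import Pool.Agent.W349.KI.T_ONB
import Pool.Agent.W320.KI.T_ADJI
import Pool.Agent.W349.KI.T_COC
import Pool.Agent.W499.KI.T_EX
import Pool.Agent.W177.KI.T_XCH
import Pool.Agent.W563.KI.T_DET
import Pool.Agent.W790.KI.T_DETP
import Pool.Agent.W15.KI.T_DEC
import Pool.Agent.W450.KI.T_BADK
import Pool.Agent.W723.KI.T_ZP
import Pool.Agent.W723.KI.T_BADZ
import Pool.Agent.W143.KI.T_IND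
import Pool.Agent.W378.KI.T_SEPA
import Pool.Agent.W699.KI.T_TRP
import Pool.Agent.W63.KI.T_EXA
import Pool.Agent.W358.KI.T_STR
import Pool.Agent.W782.KI.T_SEPB1
import Pool.Agent.W853.KI.T_MA1
import Pool.Agent.W736.KI.T_MB1
import Pool.Agent.W906.KI.T_STA
import Pool.Agent.W915.KI.T_LANO
import Pool.Agent.W32.KI.T_CEL
import Pool.Agent.W612.KI.T_RCI
import Pool.Agent.W737.KI.T_VA
import Pool.Agent.W801.OS.T_LB
import Pool.Agent.W801.OS.T_DIA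
import Pool.Agent.W801.OS.T_FIL
import Pool.Agent.W801.OS.T_NUM
import Pool.Agent.W801.OS.T_GLB
import Pool.Agent.W801.OS.T_CPL
import Pool.Agent.W801.OS.T_TRA
import Pool.Agent.W801.OS.T_D1b
import Pool.Agent.W801.OU.T_TRIc
import Pool.Agent.W808.KZ.T_ADJ
import Pool.Agent.W808.KZ.T_NC
import Pool.Agent.W808.KZ.T_ZC
import Pool.Agent.W808.KZ.T_LAND
import Pool.Agent.W808.HU.T_TRP
import Pool.Agent.H160R2.MU.T_PRB
import Pool.Agent.H160R2.MU.T_TRAP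

/-!
# Three arms in all annuli
-/

set_option autoImplicit false

namespace Pool.Agent.W424.KI

theorem a_TRIB : S_TRIB := Pool.Agent.W756.KI.t_TRIB Pool.Agent.W801.OU.t_TRIc

theorem a_ONB : S_ONB := Pool.Agent.W349.KI.t_ONB Pool.Agent.W801.OS.t_D1b a_TRIB

theorem a_COC : S_COC := Pool.Agent.W349.KI.t_COC

theorem a_NA : S_NA := Pool.Agent.W349.KI.t_NA a_COC

theorem a_LAND : Pool.Agent.W808.KZ.S_LAND :=
  Pool.Agent.W808.KZ.t_LAND Pool.Agent.W808.KZ.t_ADJ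
    (Pool.Agent.W808.KZ.t_NC Pool.Agent.W801.OU.t_TRIc) Pool.Agent.W808.KZ.t_ZC

theorem a_TRA : Pool.Agent.W801.OS.S_TRA :=
  Pool.Agent.W801.OS.t_TRA Pool.Agent.W801.OS.t_DIA Pool.Agent.W801.OS.t_FIL
    Pool.Agent.W801.OS.t_NUM (Pool.Agent.W801.OS.t_CPL Pool.Agent.W801.OS.t_GLB)

theorem a_TRF : S_TRF := t_TRF a_TRA

theorem a_TRP : S_TRP :=
  Pool.Agent.W699.KI.t_TRP (Pool.Agent.W808.HU.t_TRP Pool.Agent.H160R2.MU.t_TRAP)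

section
variable (z1 : S_z1) (z2 : S_z2) (z3 : S_z3)
include z1 z2 z3

theorem a_EX : S_EX := Pool.Agent.W499.KI.t_EX z1 z2 z3

theorem a_XCH : S_XCH := Pool.Agent.W177.KI.t_XCH (a_EX z1 z2 z3) z1 z3

theorem a_DET : S_DET := Pool.Agent.W563.KI.t_DET a_TRIB a_ONB z1 z2 z3 (a_EX z1 z2 z3)

theorem a_DETP : S_DETP := Pool.Agent.W790.KI.t_DETP (a_DET z1 z2 z3)

theorem a_SEPA : S_SEPA := Pool.Agent.W378.KI.t_SEPA z1 z2 z3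

theorem a_STR : S_STR := Pool.Agent.W358.KI.t_STR z1 z3

theorem a_FRB : S_FRB := Pool.Agent.W358.KI.t_FRB z3

theorem a_SEPB1 : S_SEPB1 := Pool.Agent.W782.KI.t_SEPB1 z1 z2 z3 (a_FRB z1 z2 z3)

theorem a_MA1 : S_MA1 :=
  Pool.Agent.W853.KI.t_MA1 a_TRIB a_ONB a_COC a_NA (a_XCH z1 z2 z3) z2 z3 (a_EX z1 z2 z3)
    Pool.Agent.W63.KI.t_EXA1 (a_SEPA z1 z2 z3)

theorem a_MB1 : S_MB1 :=
  Pool.Agent.W736.KI.t_MB1 a_TRIB a_ONB a_COC a_NA (a_XCH z1 z2 z3) z1 z2 z3 (a_EX z1 z2 z3)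
    Pool.Agent.W63.KI.t_EXB1 (a_STR z1 z2 z3) (a_FRB z1 z2 z3) (a_SEPB1 z1 z2 z3)

omit z1 z2 z3 in
theorem a_BADZ : S_BADZ :=
  Pool.Agent.W723.KI.t_BADZ Pool.Agent.W450.KI.t_BADK
    (Pool.Agent.W723.KI.t_ZP Pool.Agent.W808.KZ.t_ZC)

theorem a_STA : S_STA :=
  Pool.Agent.W906.KI.t_STA Pool.Agent.H160R2.MU.t_PRB (a_MA1 z1 z2 z3) Pool.Agent.W63.KI.t_EXA1
    a_TRP a_BADZ Pool.Agent.W15.KI.t_DEC Pool.Agent.W143.KI.t_IND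

theorem a_STB : S_STB :=
  Pool.Agent.W906.KI.t_STB Pool.Agent.H160R2.MU.t_PRB (a_MB1 z1 z2 z3) Pool.Agent.W63.KI.t_EXB1
    a_TRP a_BADZ Pool.Agent.W15.KI.t_DEC Pool.Agent.W143.KI.t_IND

omit z1 z2 z3 in
theorem a_LANO : S_LANO := Pool.Agent.W915.KI.t_LANO Pool.Agent.W320.KI.t_ADJI Pool.Agent.W808.KZ.t_ZC

omit z1 z2 z3 in
theorem a_LB : S_LB := Pool.Agent.W801.OS.t_LB

theorem a_VA (hUR : Pool.Agent.W801.OU.S_UR3) : S_VA :=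
  Pool.Agent.W737.KI.t_VA (Pool.Agent.W612.KI.t_RCI a_LANO
    (Pool.Agent.W32.KI.t_CEL a_LAND hUR a_LB) (a_DETP z1 z2 z3) (a_STA z1 z2 z3) (a_STB z1 z2 z3)
    hUR)

theorem a_U3 (hUR : Pool.Agent.W801.OU.S_UR3) : S_U3 :=
  Pool.Agent.W737.KI.t_U3 (a_VA z1 z2 z3 hUR) a_TRF

end

end Pool.Agent.W424.KI
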