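import Pool.Agent.W808.KZ.Stm

/-!
# Annuli of the dislocated plane (three arms): definitions

Coordinates of `Pool.Agent.W801.OU`, everything takes place in the box `bxz R` (zipper `{0}` on the side
`t < 0`, it leaves every box through the upper left corner).  Coarse squares of side `r`: inner box
`[-N r, N r)²` around the tip, outer region outside of `[-L r, L r)²`, `3 N ≤ L`; between them the middle
region with a tube from the cell `Ci` of the inner box to the cell `Co` of the outer region; the rest of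
the middle region is the closed region.
-/

set_option autoImplicit false

namespace Pool.Agent.W424.KI
open H974 H906.Cyl
open H12S (Dir hbE segD rimE H4 Crs Nr sqE)
open Pool.Agent.H160R2.ML (nm)
open Pool.Agent.H160R2.MU (Cel csq cpos EP inSq)
open Pool.Agent.W801.OU
open Pool.Agent.W808.KZ (vp fp AdmZ OutF LandZ nrp ZCr mrg)

/-! ## annuli -/

/-- the squares of the annulus: edges with both ends at distance between `d` and `R` -/
def AnS (d R : ℤ) : Set Edg :=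
  {e | (d ≤ nm (src e) ∧ d ≤ nm (tgt e)) ∧ nm (src e) ≤ R ∧ nm (tgt e) ≤ R}

/-- the point `x` touches the outside of the box `R` -/
def Tou (R : ℤ) (x : ℤ × ℤ) : Prop := ∃ e ∉ bxz R, Cor {0} 0 e x ∨ Cor {0} 1 e x

/-- the cluster of `x` in the annulus touches the outside -/
def Crx (d R : ℤ) (G : Set Edg) (x : ℤ × ℤ) : Prop := ∃ y, RZ {0} (AnS d R) G x y ∧ Tou R y

/-- three arms in the annulus: the inside can be filled such that the three sectors of the tip are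
pairwise not connected and reach the boundary of the box -/
def VA (d R : ℤ) (G : Set Edg) : Prop := ∃ H : Set Edg, (∀ e ∈ AnS d R, (e ∈ H ↔ e ∈ G)) ∧ SE3 R H

/-- its probability -/
noncomputable def vA (d R : ℕ) : ℝ :=
  Pr (fun _ => (1 / 2 : ℝ)) (boxE R) (fun F => VA d R (↑F : Set Edg))

/-! ## coarse geometry -/

/-- coarse squares of the inner box and of the outer region -/
def BxI (N L : ℕ) : Set (ℤ × ℤ) := {z |
  (-(N : ℤ) ≤ z.1 ∧ z.1 < N ∧ -(N : ℤ) ≤ z.2 ∧ z.2 < N) ∨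
  ¬ (-(L : ℤ) ≤ z.1 ∧ z.1 < L ∧ -(L : ℤ) ≤ z.2 ∧ z.2 < L)}

/-- the coarse square inside the box `[-L, L)²` next to the cell -/
def isq (L : ℕ) (c : Cel) : ℤ × ℤ :=
  if c.1 = 0 then (c.2, L - 1) else if c.1 = 1 then (L - 1, c.2) else if c.1 = 2 then (c.2, -L)
  else (-L, c.2)

/-- admissible outer cells -/
def AdmO (L : ℕ) (C : Cel) : Prop := C.1 < 4 ∧ -(L : ℤ) + 8 ≤ C.2 ∧ C.2 + 9 ≤ L

/-- the stub from the inner cell to the ring -/
def StI (N L : ℕ) (C : Cel) : Set (ℤ × ℤ) := {z |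
  (C.1 = 0 ∧ z.1 = C.2 ∧ (N : ℤ) ≤ z.2 ∧ z.2 ≤ L - 3) ∨
  (C.1 = 1 ∧ z.2 = C.2 ∧ (N : ℤ) ≤ z.1 ∧ z.1 ≤ L - 3) ∨
  (C.1 = 2 ∧ z.1 = C.2 ∧ -(L : ℤ) + 2 ≤ z.2 ∧ z.2 ≤ -N - 1) ∨
  (C.1 = 3 ∧ z.2 = C.2 ∧ -(L : ℤ) + 2 ≤ z.1 ∧ z.1 ≤ -N - 1)}

/-- the ring, with a gap at the upper left corner -/
def RgI (L : ℕ) : Set (ℤ × ℤ) := {z |
  (z.2 = (L : ℤ) - 3 ∧ -(L : ℤ) + 8 ≤ z.1 ∧ z.1 ≤ L - 3) ∨
  (z.1 = (L : ℤ) - 3 ∧ -(L : ℤ) + 2 ≤ z.2 ∧ z.2 ≤ L - 3) ∨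
  (z.2 = -(L : ℤ) + 2 ∧ -(L : ℤ) + 2 ≤ z.1 ∧ z.1 ≤ L - 3) ∨
  (z.1 = -(L : ℤ) + 2 ∧ -(L : ℤ) + 2 ≤ z.2 ∧ z.2 ≤ L - 9)}

/-- the stub from the ring to the outer cell -/
def StO (L : ℕ) (C : Cel) : Set (ℤ × ℤ) := {z |
  (C.1 = 0 ∧ z.1 = C.2 ∧ (L : ℤ) - 3 ≤ z.2 ∧ z.2 ≤ L - 1) ∨
  (C.1 = 1 ∧ z.2 = C.2 ∧ (L : ℤ) - 3 ≤ z.1 ∧ z.1 ≤ L - 1) ∨
  (C.1 = 2 ∧ z.1 = C.2 ∧ -(L : ℤ) ≤ z.2 ∧ z.2 ≤ -L + 2) ∨
  (C.1 = 3 ∧ z.2 = C.2 ∧ -(L : ℤ) ≤ z.1 ∧ z.1 ≤ -L + 2)}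

/-- the tube -/
def TubI (N L : ℕ) (Ci Co : Cel) : Set (ℤ × ℤ) := {z | z ∈ StI N L Ci ∨ z ∈ RgI L ∨ z ∈ StO L Co}

/-- the data of the geometry -/
structure Geo (N L r : ℕ) (Ci Co : Cel) (R : ℕ) : Prop where
  hN : 16 ≤ N
  hL : 3 * N ≤ L
  hr : 4 ≤ r
  hi : AdmZ N Ci
  ho : AdmO L Co
  hR : 4 * (L * r) ≤ R

/-- squares of the inner box and of the outer region -/
abbrev EB (N L r : ℕ) : Set Edg := EP r (BxI N L)

/-- squares of the tube -/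
abbrev ET (N L r : ℕ) (Ci Co : Cel) : Set Edg := EP r (TubI N L Ci Co)

/-- the closed squares -/
def Clo (N L r : ℕ) (Ci Co : Cel) : Set Edg := {e | e ∉ EB N L r ∧ e ∉ ET N L r Ci Co}

/-! ## configurations -/

open Classical in
/-- inner box and outer region random, tube open, the rest closed -/
noncomputable def FA (N L r : ℕ) (Ci Co : Cel) (R : ℕ) (F : Finset Edg) : Finset Edg :=
  (boxE R).filter (fun e => (e ∈ EB N L r ∧ e ∈ F) ∨ (e ∉ EB N L r ∧ e ∈ ET N L r Ci Co))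

open Classical in
/-- inner box, outer region and tube random, the rest closed -/
noncomputable def FB (N L r : ℕ) (Ci Co : Cel) (R : ℕ) (F : Finset Edg) : Finset Edg :=
  (boxE R).filter (fun e => (e ∈ EB N L r ∨ e ∈ ET N L r Ci Co) ∧ e ∈ F)

/-- faces inside the box of radius `R` (`= L r`), next to its boundary, away from its corners -/
def InF (r : ℕ) (R : ℤ) (p : Vtx) : Prop :=
  ((p.2 = R - 1 ∨ p.2 = -R) ∧ |p.1| + 4 * r ≤ R) ∨ ((p.1 = R - 1 ∨ p.1 = -R) ∧ |p.2| + 4 * r ≤ R)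

/-- clockwise position of such a face, from the upper left corner -/
def fps (R : ℤ) (p : Vtx) : ℤ :=
  if p.2 = R - 1 then p.1 + R else if p.1 = R - 1 then 2 * R + (R - 1 - p.2)
  else if p.2 = -R then 4 * R + (R - 1 - p.1) else 6 * R + (p.2 + R)

/-- faces before the cell `C` -/
def SdA (L r : ℕ) (C : Cel) (p : Vtx) : Prop := InF r (L * r : ℕ) p ∧ fps (L * r : ℕ) p < cpos L C * r

/-- faces after the cell `C` -/
def SdB (L r : ℕ) (C : Cel) (p : Vtx) : Prop :=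
  InF r (L * r : ℕ) p ∧ (cpos L C + 1) * r ≤ fps (L * r : ℕ) p

/-- landing of the annulus at its inner boundary: crossing clusters touch the cell `C` in class `0`, and
both sides of it in class `1` -/
def LandO (L r : ℕ) (C : Cel) (R : ℕ) (G : Set Edg) : Prop :=
  (∃ v : Vtx, inSq r (isq L C) v ∧ nm v = (L * r : ℕ) ∧ Crx (L * r : ℕ) R G (vp v)) ∧
  (∃ p : Vtx, SdA L r C p ∧ Crx (L * r : ℕ) R G (fp p)) ∧
  (∃ p : Vtx, SdB L r C p ∧ Crx (L * r : ℕ) R G (fp p))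

/-- the points of class `1` of the closed region -/
def XE (N L r : ℕ) (Ci Co : Cel) (x : ℤ × ℤ) : Prop := ∃ e ∈ Clo N L r Ci Co, Cor {0} 1 e x

/-- the event of the steps: three arms from the tip, and one sector is not connected to the closed
region -/
def EZ (N L r : ℕ) (Ci Co : Cel) (R : ℕ) (G : Set Edg) : Prop :=
  SE3 R G ∧ ∃ c : ℕ, c < 3 ∧ ∀ x : ℤ × ℤ, XE N L r Ci Co x → ¬ RZ {0} (bxz R) G (scz 0 0 c) x

/-! ## traps and bad events -/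

/-- the planar configuration of class `c` (class `1`: the dual edges of the closed edges, the face of
lower left corner `v` is called `v`) -/
def Cp (c : ℕ) (G : Set Edg) : Set Edg :=
  {e | if c = 0 then e ∈ G else edz (e.1 + e.2.1 + 1) (dco e) ∉ G}

/-- all the clusters of class `c` near the middle region are small -/
def PTr (c L r l : ℕ) (G : Set Edg) : Prop :=
  ∀ u v : Vtx, nm u ≤ 2 * (L * r : ℕ) → Reach (Cp c G) u v → Nr (4 * l) u v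

/-- bad event in the middle region: an arm near a coarse vertex or three arms along a coarse line -/
def Bad (c N L r ρ l : ℕ) (G : Set Edg) : Prop :=
  (∃ ζ : ℤ × ℤ, (|ζ.1| ≤ L ∧ |ζ.2| ≤ L) ∧ ((N : ℤ) ≤ |ζ.1| ∨ (N : ℤ) ≤ |ζ.2|) ∧
    Crs (r * ζ.1) (r * ζ.2) (4 * ρ) (r / 2) (Cp c G)) ∨
  (∃ (d : Dir) (x0 y0 i j : ℤ), (|x0| ≤ L * r + 1 ∧ |y0| ≤ L * r + 1) ∧
    ((N : ℤ) * r - 1 ≤ |x0| ∨ (N : ℤ) * r - 1 ≤ |y0|) ∧
    (((d = Dir.up ∨ d = Dir.dn) ∧ x0 = l * i ∧ (y0 = r * j ∨ y0 = r * j - 1)) ∨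
      ((d = Dir.rt ∨ d = Dir.lf) ∧ y0 = l * i ∧ (x0 = r * j ∨ x0 = r * j - 1))) ∧
    H4 d x0 y0 (8 * l) ρ (Cp c G))

/-- bad event at the points where the zipper leaves the inner box and enters the outer region -/
def BZ (N L r ρ : ℕ) (G : Set Edg) : Prop :=
  ZCr {0} {e | |e.1 + e.2.1| ≤ r ∧ |dco e + 2 * N * r| ≤ r} G (-(2 * N * r)) (16 * ρ) (r / 2) ∨
  ZCr {0} {e | |e.1 + e.2.1| ≤ r ∧ |dco e + 2 * L * r| ≤ r} G (-(2 * L * r)) (16 * ρ) (r / 2)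

/-- probability in the box -/
noncomputable def PF (R : ℕ) (A : Finset Edg → Prop) : ℝ := Pr (fun _ => (1 / 2 : ℝ)) (boxE R) A

/-! ## sides -/

/-- the four sides of the squares of the box (adjacent points) -/
inductive SdR (R : ℤ) : ℤ × ℤ → ℤ × ℤ → Prop
  | bot (e : Edg) : e ∈ bxz R → e ∉ zp {0} → SdR R (nrm {0} (dco e) (e.1 + e.2.1) (dco e))
      (nrm {0} (dco e) (e.1 + e.2.1 + 1) (dco e))
  | top (e : Edg) : e ∈ bxz R → e ∉ zp {0} → SdR R (nrm {0} (dco e) (e.1 + e.2.1) (dco e + 1))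
      (nrm {0} (dco e) (e.1 + e.2.1 + 1) (dco e + 1))
  | lft (e : Edg) : e ∈ bxz R → e ∉ zp {0} → SdR R (nrm {0} (dco e) (e.1 + e.2.1) (dco e))
      (nrm {0} (dco e) (e.1 + e.2.1) (dco e + 1))
  | rgt (e : Edg) : e ∈ bxz R → e ∉ zp {0} → SdR R (nrm {0} (dco e) (e.1 + e.2.1 + 1) (dco e))
      (nrm {0} (dco e) (e.1 + e.2.1 + 1) (dco e + 1))

/-! ## step A: the exploration of the clusters of the closed region -/

/-- marked points: sectors, class `1` of the closed region, class `0` of the tube -/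
def XA (N L r : ℕ) (Ci Co : Cel) (x : ℤ × ℤ) : Prop :=
  (∃ c : ℕ, c < 3 ∧ x = scz 0 0 c) ∨ XE N L r Ci Co x ∨
    ∃ e : Edg, e ∉ EB N L r ∧ e ∈ ET N L r Ci Co ∧ Cor {0} 0 e x

/-- points of class `1` of the tube -/
def DeA (N L r : ℕ) (Ci Co : Cel) (u : ℤ × ℤ) : Prop :=
  ∃ e : Edg, e ∉ EB N L r ∧ e ∈ ET N L r Ci Co ∧ Cor {0} 1 e u

/-- the clusters of the closed region -/
def KA1 (N L r : ℕ) (Ci Co : Cel) (R : ℕ) (F : Finset Edg) (x : ℤ × ℤ) : Prop :=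
  ∃ y, XE N L r Ci Co y ∧ RZ {0} (bxz R) (↑(FA N L r Ci Co R F) : Set Edg) y x

open Classical in
/-- the explored squares -/
noncomputable def ExA1 (N L r : ℕ) (Ci Co : Cel) (R : ℕ) (F : Finset Edg) : Finset Edg :=
  (boxE R).filter (fun e => e ∈ EB N L r ∧
    ∃ x, KA1 N L r Ci Co R F x ∧ (Cor {0} 0 e x ∨ Cor {0} 1 e x))

/-! ## step B: the exploration of the cluster of one sector and of the local clusters of class `0` -/

/-- squares near the closed region -/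
def NrD (N L r ρ : ℕ) (Ci Co : Cel) (e : Edg) : Prop :=
  ∃ e' ∈ Clo N L r Ci Co, |e.1 - e'.1| ≤ 2 * ρ ∧ |e.2.1 - e'.2.1| ≤ 2 * ρ

/-- squares near the points `(-N r, N r)` and `(-L r, L r)` where the zipper leaves the inner box and
enters the outer region -/
def Exi (N L r ρ : ℕ) (e : Edg) : Prop :=
  (|e.1 + N * r| ≤ 5 * ρ ∧ |e.2.1 - N * r| ≤ 5 * ρ) ∨ (|e.1 + L * r| ≤ 5 * ρ ∧ |e.2.1 - L * r| ≤ 5 * ρ)

/-- the strip -/
def Yb (N L r ρ : ℕ) (Ci Co : Cel) : Set Edg :=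
  {e | (e ∈ EB N L r ∨ e ∈ ET N L r Ci Co) ∧ NrD N L r ρ Ci Co e ∧ ¬ Exi N L r ρ e}

/-- the local clusters of class `0` in the strip (of the vertices which touch a square outside the
strip and outside the closed region) -/
def KL (N L r ρ : ℕ) (Ci Co : Cel) (F : Finset Edg) (v : Vtx) : Prop :=
  ∃ (w : Vtx) (e : Edg), (e ∈ EB N L r ∨ e ∈ ET N L r Ci Co) ∧ e ∉ Yb N L r ρ Ci Co ∧
    (src e = w ∨ tgt e = w) ∧ Reach ((↑F : Set Edg) ∩ Yb N L r ρ Ci Co) w v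

/-- vertices of the closed region -/
def DvB (N L r : ℕ) (Ci Co : Cel) (v : Vtx) : Prop := ∃ e ∈ Clo N L r Ci Co, src e = v ∨ tgt e = v

/-- the cluster of the sector `c` -/
def KB1 (c N L r : ℕ) (Ci Co : Cel) (R : ℕ) (F : Finset Edg) (x : ℤ × ℤ) : Prop :=
  RZ {0} (bxz R) (↑(FB N L r Ci Co R F) : Set Edg) (scz 0 0 c) x

open Classical in
/-- the explored squares -/
noncomputable def ExB1 (c N L r ρ : ℕ) (Ci Co : Cel) (R : ℕ) (F : Finset Edg) : Finset Edg :=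
  (boxE R).filter (fun e => (e ∈ EB N L r ∨ e ∈ ET N L r Ci Co) ∧
    ((∃ x, KB1 c N L r Ci Co R F x ∧ (Cor {0} 0 e x ∨ Cor {0} 1 e x)) ∨
      (e ∈ Yb N L r ρ Ci Co ∧ (KL N L r ρ Ci Co F (src e) ∨ KL N L r ρ Ci Co F (tgt e)))))

/-- three arms, and the sector `c` is not connected to the closed region -/
def EZc (c N L r : ℕ) (Ci Co : Cel) (R : ℕ) (G : Set Edg) : Prop :=
  SE3 R G ∧ ∀ x : ℤ × ℤ, XE N L r Ci Co x → ¬ RZ {0} (bxz R) G (scz 0 0 c) x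

end Pool.Agent.W424.KI
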