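import Pool.Agent.W424.KI.Stm
import Pool.Agent.W801.OS.Stm3

/-!
# Bridge between the transfer of `Pool.Agent.W801.OS` and the annuli of `Pool.Agent.W424.KI`
-/

set_option autoImplicit false

namespace Pool.Agent.W424.KI
open H974 H906.Cyl
open Pool.Agent.H160R2.ML (nm)
open Pool.Agent.W801.OU

theorem AnZ_eq (d R : ℤ) : Pool.Agent.W801.OS.AnZ d R = AnS d R := by
  ext e
  simp only [Pool.Agent.W801.OS.AnZ, AnS, Set.mem_setOf_eq]
  tauto

theorem V3_eq (d R : ℤ) (G : Set Edg) : Pool.Agent.W801.OS.V3 d R G ↔ VA d R G := by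
  unfold Pool.Agent.W801.OS.V3 VA
  rw [AnZ_eq]

theorem t_TRF (h : Pool.Agent.W801.OS.S_TRA) : S_TRF := by
  obtain ⟨C, K, hC, hK, h⟩ := h
  refine ⟨C, K, 20, K, hC, by omega, by omega, fun c d k hd hk S hS => ?_⟩
  have := h c d k hd hk S hS
  refine le_trans this (le_of_eq ?_)
  unfold vA
  congr 2
  funext F
  exact propext (V3_eq _ _ _)

end Pool.Agent.W424.KI
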